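import Mathlib

/-!
# A set with two properties D(n₁), D(n₂): the difference n₁ - n₂ is never a prime power

If four distinct non-zero integers form a set which is both a `D(n₁)`- and a
`D(n₂)`-quadruple, `n₁ ≠ n₂`, then `|n₁ - n₂|` is neither a power of a prime nor four times such a power.
-/

namespace Run7.h648.PP

/-- `F q m e = q^(2e) + q^(2(m-e))`. -/
def F (q m e : ℕ) : ℤ := (q : ℤ) ^ (2 * e) + (q : ℤ) ^ (2 * (m - e))

lemma F_sub (q m e f : ℕ) (hef : e < f) (hf : 2 * f ≤ m) :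
    F q m e - F q m f
      = (q : ℤ) ^ (2 * e) * (((q : ℤ) ^ (2 * (f - e)) - 1) * ((q : ℤ) ^ (2 * (m - e - f)) - 1)) := by
  obtain ⟨k, rfl⟩ : ∃ k, f = e + k := ⟨f - e, by omega⟩
  obtain ⟨l, rfl⟩ : ∃ l, m = 2 * (e + k) + l := ⟨m - 2 * (e + k), by omega⟩
  unfold F
  have h1 : 2 * (e + k) + l - e = e + 2 * k + l := by omega
  have h2 : 2 * (e + k) + l - (e + k) = e + k + l := by omega
  have h3 : e + k - e = k := by omega
  have h4 : e + 2 * k + l - (e + k) = k + l := by omega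
  rw [h1, h2, h3, h4]
  ring

lemma not_dvd_pow_sub_one (q : ℕ) [hq : Fact q.Prime] (s : ℕ) (hs : 0 < s) :
    ¬ ((q : ℤ) ∣ (q : ℤ) ^ s - 1) := by
  intro h
  have h1 : (q : ℤ) ∣ (q : ℤ) ^ s := dvd_pow_self _ hs.ne'
  have h2 : (q : ℤ) ∣ 1 := by
    have := dvd_sub h1 h
    simpa using this
  have h3 : Prime (q : ℤ) := Nat.prime_iff_prime_int.mp hq.out
  exact h3.not_isUnit (isUnit_of_dvd_one h2)

lemma F_sub_pos (q m e f : ℕ) [hq : Fact q.Prime] (hef : e < f) (hf : 2 * f ≤ m) :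
    0 < F q m e - F q m f := by
  rw [F_sub q m e f hef hf]
  have hq2 : (2 : ℤ) ≤ q := by exact_mod_cast hq.out.two_le
  have hp : ∀ s : ℕ, 0 < s → (0 : ℤ) < (q : ℤ) ^ s - 1 := by
    intro s hs
    have : (1 : ℤ) < (q : ℤ) ^ s := one_lt_pow₀ (by linarith) hs.ne'
    linarith
  have h1 := hp (2 * (f - e)) (by omega)
  have h2 := hp (2 * (m - e - f)) (by omega)
  have h3 : (0 : ℤ) < (q : ℤ) ^ (2 * e) := by positivity
  positivity

lemma F_sub_val (q m e f : ℕ) [hq : Fact q.Prime] (hef : e < f) (hf : 2 * f ≤ m) :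
    padicValInt q (F q m e - F q m f) = 2 * e := by
  have h3 : Prime (q : ℤ) := Nat.prime_iff_prime_int.mp hq.out
  have hq0 : (q : ℤ) ≠ 0 := h3.ne_zero
  have hpos := F_sub_pos q m e f hef hf
  rw [F_sub q m e f hef hf] at hpos ⊢
  set K : ℤ := ((q : ℤ) ^ (2 * (f - e)) - 1) * ((q : ℤ) ^ (2 * (m - e - f)) - 1) with hK
  have hK0 : K ≠ 0 := by
    intro h
    rw [h] at hpos
    simp at hpos
  have hqK : ¬ ((q : ℤ) ∣ K) := by
    intro h
    rcases h3.dvd_or_dvd h with h | h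
    · exact not_dvd_pow_sub_one q _ (by omega) h
    · exact not_dvd_pow_sub_one q _ (by omega) h
  rw [padicValInt.mul (pow_ne_zero _ hq0) hK0]
  have h1 : padicValInt q ((q : ℤ) ^ (2 * e)) = 2 * e := by
    have : ((q : ℤ) ^ (2 * e)) = ((q ^ (2 * e) : ℕ) : ℤ) := by push_cast; rfl
    rw [this, padicValInt.of_nat, padicValNat.prime_pow]
  have h2 : padicValInt q K = 0 := by
    rw [padicValInt.eq_zero_iff]
    right; right
    exact hqK
  rw [h1, h2]
  rfl

/-- One vertex `b` and two further elements `x < y`. -/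
lemma step (q m : ℕ) [hq : Fact q.Prime] (L : ℤ) (hL : 0 < L) (C b x y : ℤ) (hb : b ≠ 0)
    (hxy : x < y) (ex ey : ℕ) (hex : 2 * ex ≤ m) (hey : 2 * ey ≤ m)
    (hx : L * (b * x) = F q m ex - C) (hy : L * (b * y) = F q m ey - C) :
    (0 < b → ey < ex ∧ padicValInt q L + padicValInt q b + padicValInt q (y - x) = 2 * ey) ∧
    (b < 0 → ex < ey ∧ padicValInt q L + padicValInt q b + padicValInt q (y - x) = 2 * ex) := by
  have hyx : y - x ≠ 0 := by omega
  have hval : padicValInt q (L * (b * (y - x)))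
      = padicValInt q L + padicValInt q b + padicValInt q (y - x) := by
    rw [padicValInt.mul hL.ne' (mul_ne_zero hb hyx), padicValInt.mul hb hyx]
    ring
  have hval' : padicValInt q (-(L * (b * (y - x))))
      = padicValInt q L + padicValInt q b + padicValInt q (y - x) := by
    rw [← hval]
    simp [padicValInt]
  have hdiff : L * (b * (y - x)) = F q m ey - F q m ex := by
    have : L * (b * (y - x)) = L * (b * y) - L * (b * x) := by ring
    rw [this, hx, hy]; ring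
  rcases lt_trichotomy ex ey with h | h | h
  · have hpos := F_sub_pos q m ex ey h hey
    have hv := F_sub_val q m ex ey h hey
    constructor
    · intro hb'
      exfalso
      have : 0 < L * (b * (y - x)) := mul_pos hL (mul_pos hb' (by linarith))
      linarith
    · intro _
      refine ⟨h, ?_⟩
      rw [← hval', hdiff]
      have : -(F q m ey - F q m ex) = F q m ex - F q m ey := by ring
      rw [this, hv]
  · exfalso
    rw [h] at hdiff
    have : L * (b * (y - x)) = 0 := by linarith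
    rcases mul_eq_zero.mp this with h' | h'
    · exact hL.ne' h'
    rcases mul_eq_zero.mp h' with h' | h'
    · exact hb h'
    · exact hyx h'
  · have hpos := F_sub_pos q m ey ex h hex
    have hv := F_sub_val q m ey ex h hex
    constructor
    · intro _
      refine ⟨h, ?_⟩
      rw [← hval, hdiff, hv]
    · intro hb'
      exfalso
      have : L * (b * (y - x)) < 0 :=
        mul_neg_of_pos_of_neg hL (mul_neg_of_neg_of_pos hb' (by linarith))
      linarith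

/-- The final divisibility argument. -/
lemma final (q m : ℕ) [hq : Fact q.Prime] (C : ℤ) (e13 e14 e23 e24 : ℕ)
    (h1 : e14 + e23 = e13 + e24) (h2 : e24 < e23) (h3 : e23 < e13) (h4 : 2 * e13 ≤ m)
    (h : (F q m e14 - C) * (F q m e23 - C) = (F q m e13 - C) * (F q m e24 - C)) : False := by
  obtain ⟨s, hs⟩ : ∃ s, e23 = e24 + s := ⟨e23 - e24, by omega⟩
  obtain ⟨t, ht⟩ : ∃ t, e13 = e23 + t := ⟨e13 - e23, by omega⟩
  obtain ⟨k, hk⟩ : ∃ k, m = 2 * e13 + k := ⟨m - 2 * e13, by omega⟩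
  have hs0 : 0 < s := by omega
  have ht0 : 0 < t := by omega
  subst hs
  subst ht
  subst hk
  have h14 : e14 = e24 + t := by omega
  subst h14
  have hq2 : (2 : ℤ) ≤ q := by exact_mod_cast hq.out.two_le
  have hprime : Prime (q : ℤ) := Nat.prime_iff_prime_int.mp hq.out
  unfold F at h
  have a1 : 2 * (e24 + s + t) + k - (e24 + t) = e24 + 2 * s + t + k := by omega
  have a2 : 2 * (e24 + s + t) + k - (e24 + s) = e24 + s + 2 * t + k := by omega
  have a3 : 2 * (e24 + s + t) + k - (e24 + s + t) = e24 + s + t + k := by omega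
  have a4 : 2 * (e24 + s + t) + k - e24 = e24 + 2 * s + 2 * t + k := by omega
  rw [a1, a2, a3, a4] at h
  set x : ℤ := (q : ℤ) ^ (2 * e24) with hx
  set S : ℤ := (q : ℤ) ^ (2 * s) with hS
  set T : ℤ := (q : ℤ) ^ (2 * t) with hT
  set K : ℤ := (q : ℤ) ^ (2 * k) with hK
  have hx0 : 0 < x := by positivity
  have hK1 : 1 ≤ K := one_le_pow₀ (by linarith)
  have hS4 : 4 ≤ S := by
    have : (4 : ℤ) = 2 ^ 2 := by norm_num
    rw [this]
    calc (2 : ℤ) ^ 2 ≤ (q : ℤ) ^ 2 := by gcongr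
      _ ≤ (q : ℤ) ^ (2 * s) := pow_le_pow_right₀ (by linarith) (by omega)
  have hT4 : 4 ≤ T := by
    have : (4 : ℤ) = 2 ^ 2 := by norm_num
    rw [this]
    calc (2 : ℤ) ^ 2 ≤ (q : ℤ) ^ 2 := by gcongr
      _ ≤ (q : ℤ) ^ (2 * t) := pow_le_pow_right₀ (by linarith) (by omega)
  have b1 : (q : ℤ) ^ (2 * (e24 + t)) = x * T := by rw [hx, hT, ← pow_add]; ring_nf
  have b2 : (q : ℤ) ^ (2 * (e24 + s)) = x * S := by rw [hx, hS, ← pow_add]; ring_nf
  have b3 : (q : ℤ) ^ (2 * (e24 + s + t)) = x * S * T := by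
    rw [hx, hS, hT, ← pow_add, ← pow_add]; ring_nf
  have b4 : (q : ℤ) ^ (2 * (e24 + 2 * s + t + k)) = x * S ^ 2 * T * K := by
    rw [hx, hS, hT, hK, ← pow_mul, ← pow_add, ← pow_add, ← pow_add]; ring_nf
  have b5 : (q : ℤ) ^ (2 * (e24 + s + 2 * t + k)) = x * S * T ^ 2 * K := by
    rw [hx, hS, hT, hK, ← pow_mul, ← pow_add, ← pow_add, ← pow_add]; ring_nf
  have b6 : (q : ℤ) ^ (2 * (e24 + s + t + k)) = x * S * T * K := by
    rw [hx, hS, hT, hK, ← pow_add, ← pow_add, ← pow_add]; ring_nf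
  have b7 : (q : ℤ) ^ (2 * (e24 + 2 * s + 2 * t + k)) = x * S ^ 2 * T ^ 2 * K := by
    rw [hx, hS, hT, hK, ← pow_mul, ← pow_mul, ← pow_add, ← pow_add, ← pow_add]; ring_nf
  rw [b1, b2, b3, b4, b5, b6, b7] at h
  have key : x * ((S - 1) * ((T - 1) * (C * (1 + K * S * T)))) =
      x * ((S - 1) * ((T - 1) * (x * (K * S * T) * ((S + 1) * (T + 1))))) := by
    linear_combination h
  have key2 : C * (1 + K * S * T) = x * (K * S * T) * ((S + 1) * (T + 1)) := by
    have e1 := mul_left_cancel₀ hx0.ne' key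
    have e2 := mul_left_cancel₀ (by linarith : (S - 1 : ℤ) ≠ 0) e1
    exact mul_left_cancel₀ (by linarith : (T - 1 : ℤ) ≠ 0) e2
  -- `1 + K S T` is coprime to `q`
  have hcop : IsCoprime (1 + K * S * T) (q : ℤ) := by
    have : (q : ℤ) ∣ K * S * T := by
      have : (q : ℤ) ∣ S := dvd_pow_self _ (by omega)
      exact (this.mul_left K).mul_right T
    obtain ⟨r, hr⟩ := this
    exact ⟨1, -r, by rw [hr]; ring⟩
  have hcop1 : IsCoprime (1 + K * S * T) (x * (K * S * T)) := by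
    have hxc : IsCoprime (1 + K * S * T) x := hcop.pow_right
    have hKc : IsCoprime (1 + K * S * T) K := hcop.pow_right
    have hSc : IsCoprime (1 + K * S * T) S := hcop.pow_right
    have hTc : IsCoprime (1 + K * S * T) T := hcop.pow_right
    exact hxc.mul_right ((hKc.mul_right hSc).mul_right hTc)
  have hdvd : (1 + K * S * T) ∣ (S + 1) * (T + 1) := by
    have : (1 + K * S * T) ∣ x * (K * S * T) * ((S + 1) * (T + 1)) := ⟨C, by rw [← key2]; ring⟩
    exact hcop1.dvd_of_dvd_mul_left this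
  obtain ⟨j, hj⟩ := hdvd
  have hKST : 0 < 1 + K * S * T := by positivity
  have hjpos : 0 < j := by
    have : 0 < (1 + K * S * T) * j := by rw [← hj]; positivity
    exact (mul_pos_iff_of_pos_left hKST).mp this
  have hST : 0 < S * T := by positivity
  have hSTbig : S + T < S * T := by
    have h5 : 0 ≤ (S - 4) * (T - 4) := mul_nonneg (by linarith) (by linarith)
    linarith
  have hKST1 : S * T ≤ K * S * T := by
    have := mul_le_mul_of_nonneg_right hK1 hST.le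
    linarith
  rcases le_or_gt 2 j with hj2 | hj2
  · have h5 := mul_le_mul_of_nonneg_left hj2 hKST.le
    rw [← hj] at h5
    linarith
  · have hj1 : j = 1 := by omega
    rw [hj1] at hj
    rcases le_or_gt 2 K with hK2 | hK2
    · have h5 := mul_le_mul_of_nonneg_right hK2 hST.le
      linarith
    · have hK1' : K = 1 := by omega
      rw [hK1'] at hj
      linarith

/-- All four elements positive. -/
lemma core_pos (q m : ℕ) [hq : Fact q.Prime] (L : ℤ) (hL : 0 < L) (C b1 b2 b3 b4 : ℤ)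
    (h0 : 0 < b1) (h12 : b1 < b2) (h23 : b2 < b3) (h34 : b3 < b4)
    (e12 e13 e14 e23 e24 e34 : ℕ)
    (m12 : 2 * e12 ≤ m) (m13 : 2 * e13 ≤ m) (m14 : 2 * e14 ≤ m)
    (m23 : 2 * e23 ≤ m) (m24 : 2 * e24 ≤ m) (m34 : 2 * e34 ≤ m)
    (p12 : L * (b1 * b2) = F q m e12 - C) (p13 : L * (b1 * b3) = F q m e13 - C)
    (p14 : L * (b1 * b4) = F q m e14 - C) (p23 : L * (b2 * b3) = F q m e23 - C)
    (p24 : L * (b2 * b4) = F q m e24 - C) (p34 : L * (b3 * b4) = F q m e34 - C) : False := by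
  have s1_23 := (step q m L hL C b1 b2 b3 (by omega) h23 e12 e13 m12 m13 p12 p13).1 h0
  have s1_34 := (step q m L hL C b1 b3 b4 (by omega) h34 e13 e14 m13 m14 p13 p14).1 h0
  have p21 : L * (b2 * b1) = F q m e12 - C := by rw [← p12]; ring
  have p32 : L * (b3 * b2) = F q m e23 - C := by rw [← p23]; ring
  have p43 : L * (b4 * b3) = F q m e34 - C := by rw [← p34]; ring
  have p31 : L * (b3 * b1) = F q m e13 - C := by rw [← p13]; ring
  have p42 : L * (b4 * b2) = F q m e24 - C := by rw [← p24]; ring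
  have p41 : L * (b4 * b1) = F q m e14 - C := by rw [← p14]; ring
  have s2_13 := (step q m L hL C b2 b1 b3 (by omega) (by omega) e12 e23 m12 m23 p21 p23).1 (by omega)
  have s2_34 := (step q m L hL C b2 b3 b4 (by omega) (by omega) e23 e24 m23 m24 p23 p24).1 (by omega)
  have s3_12 := (step q m L hL C b3 b1 b2 (by omega) (by omega) e13 e23 m13 m23 p31 p32).1 (by omega)
  have s4_13 := (step q m L hL C b4 b1 b3 (by omega) (by omega) e14 e34 m14 m34 p41 p43).1 (by omega)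
  have s4_23 := (step q m L hL C b4 b2 b3 (by omega) (by omega) e24 e34 m24 m34 p42 p43).1 (by omega)
  apply final q m C e13 e14 e23 e24 (by omega) (by omega) (by omega) m13
  rw [← p14, ← p23, ← p13, ← p24]
  ring

/-- The core statement for sorted elements. -/
lemma core (q m : ℕ) [hq : Fact q.Prime] (L : ℤ) (hL : 0 < L) (C b1 b2 b3 b4 : ℤ)
    (z1 : b1 ≠ 0) (z2 : b2 ≠ 0) (z3 : b3 ≠ 0) (z4 : b4 ≠ 0)
    (h12 : b1 < b2) (h23 : b2 < b3) (h34 : b3 < b4)
    (e12 e13 e14 e23 e24 e34 : ℕ)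
    (m12 : 2 * e12 ≤ m) (m13 : 2 * e13 ≤ m) (m14 : 2 * e14 ≤ m)
    (m23 : 2 * e23 ≤ m) (m24 : 2 * e24 ≤ m) (m34 : 2 * e34 ≤ m)
    (p12 : L * (b1 * b2) = F q m e12 - C) (p13 : L * (b1 * b3) = F q m e13 - C)
    (p14 : L * (b1 * b4) = F q m e14 - C) (p23 : L * (b2 * b3) = F q m e23 - C)
    (p24 : L * (b2 * b4) = F q m e24 - C) (p34 : L * (b3 * b4) = F q m e34 - C) : False := by
  have p21 : L * (b2 * b1) = F q m e12 - C := by rw [← p12]; ring
  have p32 : L * (b3 * b2) = F q m e23 - C := by rw [← p23]; ring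
  have p43 : L * (b4 * b3) = F q m e34 - C := by rw [← p34]; ring
  have p31 : L * (b3 * b1) = F q m e13 - C := by rw [← p13]; ring
  have p42 : L * (b4 * b2) = F q m e24 - C := by rw [← p24]; ring
  have p41 : L * (b4 * b1) = F q m e14 - C := by rw [← p14]; ring
  by_cases hpos : 0 < b1
  · exact core_pos q m L hL C b1 b2 b3 b4 hpos h12 h23 h34 e12 e13 e14 e23 e24 e34
      m12 m13 m14 m23 m24 m34 p12 p13 p14 p23 p24 p34
  by_cases hneg : b4 < 0
  · refine core_pos q m L hL C (-b4) (-b3) (-b2) (-b1) (by omega) (by omega) (by omega) (by omega)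
      e34 e24 e14 e23 e13 e12 m34 m24 m14 m23 m13 m12 ?_ ?_ ?_ ?_ ?_ ?_
    · rw [← p34]; ring
    · rw [← p24]; ring
    · rw [← p14]; ring
    · rw [← p23]; ring
    · rw [← p13]; ring
    · rw [← p12]; ring
  -- mixed signs
  have hb1 : b1 < 0 := by omega
  have hb4 : 0 < b4 := by omega
  have t1_23 := (step q m L hL C b1 b2 b3 z1 h23 e12 e13 m12 m13 p12 p13).2 hb1
  have t1_24 := (step q m L hL C b1 b2 b4 z1 (by omega) e12 e14 m12 m14 p12 p14).2 hb1
  have t1_34 := (step q m L hL C b1 b3 b4 z1 h34 e13 e14 m13 m14 p13 p14).2 hb1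
  have t4_12 := (step q m L hL C b4 b1 b2 z4 (by omega) e14 e24 m14 m24 p41 p42).1 hb4
  have t4_13 := (step q m L hL C b4 b1 b3 z4 (by omega) e14 e34 m14 m34 p41 p43).1 hb4
  have t4_23 := (step q m L hL C b4 b2 b3 z4 (by omega) e24 e34 m24 m34 p42 p43).1 hb4
  rcases lt_or_gt_of_ne z2 with hb2 | hb2
  · have t2_14 := (step q m L hL C b2 b1 b4 z2 (by omega) e12 e24 m12 m24 p21 p24).2 hb2
    have t2_34 := (step q m L hL C b2 b3 b4 z2 (by omega) e23 e24 m23 m24 p23 p24).2 hb2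
    rcases lt_or_gt_of_ne z3 with hb3 | hb3
    · have t3_12 := (step q m L hL C b3 b1 b2 z3 (by omega) e13 e23 m13 m23 p31 p32).2 hb3
      have t3_24 := (step q m L hL C b3 b2 b4 z3 (by omega) e23 e34 m23 m34 p32 p34).2 hb3
      clear p12 p13 p14 p23 p24 p34 p21 p31 p32 p41 p42 p43
      omega
    · have t3_12 := (step q m L hL C b3 b1 b2 z3 (by omega) e13 e23 m13 m23 p31 p32).1 hb3
      have t3_14 := (step q m L hL C b3 b1 b4 z3 (by omega) e13 e34 m13 m34 p31 p34).1 hb3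
      have t3_24 := (step q m L hL C b3 b2 b4 z3 (by omega) e23 e34 m23 m34 p32 p34).1 hb3
      clear p12 p13 p14 p23 p24 p34 p21 p31 p32 p41 p42 p43
      omega
  · have t2_13 := (step q m L hL C b2 b1 b3 z2 (by omega) e12 e23 m12 m23 p21 p23).1 hb2
    have t2_34 := (step q m L hL C b2 b3 b4 z2 (by omega) e23 e24 m23 m24 p23 p24).1 hb2
    clear p12 p13 p14 p23 p24 p34 p21 p31 p32 p41 p42 p43
    omega

/-- Factorisation of a difference of squares which is a prime power. -/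
lemma factor (q m : ℕ) [hq : Fact q.Prime] (x y : ℤ) (h : x * x - y * y = (q : ℤ) ^ m) :
    ∃ e : ℕ, 2 * e ≤ m ∧ 4 * (x * x) = F q m e + 2 * (q : ℤ) ^ m := by
  have hq0 : 0 < q := hq.out.pos
  have hx : x * x = (x.natAbs : ℤ) * x.natAbs := by
    rw [← Int.natAbs_mul_self' x]
  have hy : y * y = (y.natAbs : ℤ) * y.natAbs := by
    rw [← Int.natAbs_mul_self' y]
  rw [hx, hy] at h
  rw [hx]
  generalize x.natAbs = X at *
  generalize y.natAbs = Y at *
  have hpow : (0 : ℤ) < (q : ℤ) ^ m := by positivity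
  have hXY : Y < X := by
    have : (Y : ℤ) * Y < X * X := by linarith
    have h' : Y * Y < X * X := by exact_mod_cast this
    exact lt_of_mul_self_lt_mul_self₀ (Nat.zero_le _) h'
  obtain ⟨d, rfl⟩ : ∃ d, X = Y + d := ⟨X - Y, by omega⟩
  have hprod : d * (2 * Y + d) = q ^ m := by
    have : ((d * (2 * Y + d) : ℕ) : ℤ) = ((q ^ m : ℕ) : ℤ) := by
      push_cast
      push_cast at h
      linarith
    exact_mod_cast this
  have hd : d ∣ q ^ m := ⟨_, hprod.symm⟩
  obtain ⟨e, hem, rfl⟩ := (Nat.dvd_prime_pow hq.out).1 hd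
  have h2 : 2 * Y + q ^ e = q ^ (m - e) := by
    have : q ^ m = q ^ e * q ^ (m - e) := by rw [← pow_add]; congr 1; omega
    rw [this] at hprod
    exact Nat.eq_of_mul_eq_mul_left (by positivity) hprod
  have hle : q ^ e ≤ q ^ (m - e) := by omega
  have hle' : e ≤ m - e := (Nat.pow_le_pow_iff_right hq.out.one_lt).1 hle
  refine ⟨e, by omega, ?_⟩
  have h2' : (2 * (Y : ℤ) + (q : ℤ) ^ e) = (q : ℤ) ^ (m - e) := by exact_mod_cast h2
  have hm : (q : ℤ) ^ m = (q : ℤ) ^ e * (q : ℤ) ^ (m - e) := by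
    rw [← pow_add]; congr 1; omega
  unfold F
  rw [hm]
  push_cast
  have e1 : (q : ℤ) ^ (2 * e) = ((q : ℤ) ^ e) ^ 2 := by rw [← pow_mul]; ring_nf
  have e2 : (q : ℤ) ^ (2 * (m - e)) = ((q : ℤ) ^ (m - e)) ^ 2 := by rw [← pow_mul]; ring_nf
  rw [e1, e2, ← h2']
  ring

/-- Factorisation of a difference of squares which is four times a prime power. -/
lemma factor4 (q m : ℕ) [hq : Fact q.Prime] (x y : ℤ) (h : x * x - y * y = 4 * (q : ℤ) ^ m) :
    ∃ e : ℕ, 2 * e ≤ m ∧ x * x = F q m e + 2 * (q : ℤ) ^ m := by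
  have hpar : (x + y) % 2 = 0 := by
    have h1 : (x - y) * (x + y) = 2 * (2 * (q : ℤ) ^ m) := by linarith
    have h2 : (2 : ℤ) ∣ (x - y) * (x + y) := ⟨_, h1⟩
    rcases Int.prime_two.dvd_or_dvd h2 with h3 | h3 <;> omega
  obtain ⟨u, hu⟩ : ∃ u, x + y = 2 * u := ⟨(x + y) / 2, by omega⟩
  obtain ⟨v, hv⟩ : ∃ v, x - y = 2 * v := ⟨(x - y) / 2, by omega⟩
  have hx : x = u + v := by omega
  have hy : y = u - v := by omega
  subst hx
  subst hy
  have huv : u * v = (q : ℤ) ^ m := by linarith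
  have hq0 : 0 < q := hq.out.pos
  have hpow : (0 : ℤ) < (q : ℤ) ^ m := by positivity
  have huvn : u.natAbs * v.natAbs = q ^ m := by
    rw [← Int.natAbs_mul, huv]
    have : ((q : ℤ) ^ m) = ((q ^ m : ℕ) : ℤ) := by push_cast; rfl
    rw [this, Int.natAbs_natCast]
  obtain ⟨e, hem, he⟩ := (Nat.dvd_prime_pow hq.out).1 (⟨_, huvn.symm⟩ : u.natAbs ∣ q ^ m)
  have hve : v.natAbs = q ^ (m - e) := by
    have : q ^ m = q ^ e * q ^ (m - e) := by rw [← pow_add]; congr 1; omega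
    rw [this, he] at huvn
    exact Nat.eq_of_mul_eq_mul_left (by positivity) huvn
  have hu2 : u * u = ((q : ℤ) ^ e) * (q : ℤ) ^ e := by
    rw [← Int.natAbs_mul_self' u, he]
    push_cast
    ring
  have hv2 : v * v = ((q : ℤ) ^ (m - e)) * (q : ℤ) ^ (m - e) := by
    rw [← Int.natAbs_mul_self' v, hve]
    push_cast
    ring
  have hexp : (u + v) * (u + v) = (q : ℤ) ^ (2 * e) + (q : ℤ) ^ (2 * (m - e)) + 2 * (q : ℤ) ^ m := by
    have e1 : (q : ℤ) ^ (2 * e) = (q : ℤ) ^ e * (q : ℤ) ^ e := by rw [← pow_add]; ring_nf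
    have e2 : (q : ℤ) ^ (2 * (m - e)) = (q : ℤ) ^ (m - e) * (q : ℤ) ^ (m - e) := by
      rw [← pow_add]; ring_nf
    rw [e1, e2, ← hu2, ← hv2, ← huv]
    ring
  rcases le_or_gt (2 * e) m with h2 | h2
  · exact ⟨e, h2, hexp⟩
  · refine ⟨m - e, by omega, ?_⟩
    rw [hexp]
    unfold F
    have : m - (m - e) = e := by omega
    rw [this]
    ring

/-- Main lemma: all products `x y` are of the form `(F q m e - C) / L`. -/
lemma main_aux (q m : ℕ) (hq : q.Prime) (L : ℤ) (hL : 0 < L) (C : ℤ)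
    (S : Finset ℤ) (hS : S.card = 4) (h0 : (0 : ℤ) ∉ S)
    (hpair : ∀ x ∈ S, ∀ y ∈ S, x ≠ y → ∃ e : ℕ, 2 * e ≤ m ∧ L * (x * y) = F q m e - C) :
    False := by
  have : Fact q.Prime := ⟨hq⟩
  let b := S.orderEmbOfFin hS
  have hb : ∀ i, b i ∈ S := fun i => S.orderEmbOfFin_mem hS i
  have hz : ∀ i, b i ≠ 0 := fun i h => h0 (h ▸ hb i)
  have hlt : ∀ i j : Fin 4, i < j → b i < b j := fun i j h => (OrderEmbedding.lt_iff_lt b).2 h
  have l01 := hlt 0 1 (by decide)
  have l12 := hlt 1 2 (by decide)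
  have l23 := hlt 2 3 (by decide)
  obtain ⟨e12, m12, p12⟩ := hpair (b 0) (hb 0) (b 1) (hb 1) (by omega)
  obtain ⟨e13, m13, p13⟩ := hpair (b 0) (hb 0) (b 2) (hb 2) (by omega)
  obtain ⟨e14, m14, p14⟩ := hpair (b 0) (hb 0) (b 3) (hb 3) (by omega)
  obtain ⟨e23, m23, p23⟩ := hpair (b 1) (hb 1) (b 2) (hb 2) (by omega)
  obtain ⟨e24, m24, p24⟩ := hpair (b 1) (hb 1) (b 3) (hb 3) (by omega)
  obtain ⟨e34, m34, p34⟩ := hpair (b 2) (hb 2) (b 3) (hb 3) (by omega)
  exact core q m L hL C (b 0) (b 1) (b 2) (b 3) (hz 0) (hz 1) (hz 2) (hz 3) l01 l12 l23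
    e12 e13 e14 e23 e24 e34 m12 m13 m14 m23 m24 m34 p12 p13 p14 p23 p24 p34

/-- The case `n₁ - n₂ = q^m`. -/
lemma main_one (q m : ℕ) (hq : q.Prime) (n₁ n₂ : ℤ) (hn : n₁ - n₂ = (q : ℤ) ^ m)
    (S : Finset ℤ) (hS : S.card = 4) (h0 : (0 : ℤ) ∉ S)
    (h₁ : ∀ x ∈ S, ∀ y ∈ S, x ≠ y → IsSquare (x * y + n₁))
    (h₂ : ∀ x ∈ S, ∀ y ∈ S, x ≠ y → IsSquare (x * y + n₂)) : False := by
  have : Fact q.Prime := ⟨hq⟩
  refine main_aux q m hq 4 (by norm_num) (4 * n₁ - 2 * (q : ℤ) ^ m) S hS h0 ?_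
  intro x hx y hy hxy
  obtain ⟨r, hr⟩ := h₁ x hx y hy hxy
  obtain ⟨s, hs⟩ := h₂ x hx y hy hxy
  obtain ⟨e, he, h⟩ := factor q m r s (by rw [← hr, ← hs, ← hn]; ring)
  refine ⟨e, he, ?_⟩
  rw [← hr] at h
  linarith

/-- The case `n₁ - n₂ = 4 q^m`. -/
lemma main_four (q m : ℕ) (hq : q.Prime) (n₁ n₂ : ℤ) (hn : n₁ - n₂ = 4 * (q : ℤ) ^ m)
    (S : Finset ℤ) (hS : S.card = 4) (h0 : (0 : ℤ) ∉ S)
    (h₁ : ∀ x ∈ S, ∀ y ∈ S, x ≠ y → IsSquare (x * y + n₁))
    (h₂ : ∀ x ∈ S, ∀ y ∈ S, x ≠ y → IsSquare (x * y + n₂)) : False := by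
  have : Fact q.Prime := ⟨hq⟩
  refine main_aux q m hq 1 (by norm_num) (n₁ - 2 * (q : ℤ) ^ m) S hS h0 ?_
  intro x hx y hy hxy
  obtain ⟨r, hr⟩ := h₁ x hx y hy hxy
  obtain ⟨s, hs⟩ := h₂ x hx y hy hxy
  obtain ⟨e, he, h⟩ := factor4 q m r s (by rw [← hr, ← hs, ← hn]; ring)
  refine ⟨e, he, ?_⟩
  rw [← hr] at h
  linarith

end Run7.h648.PP

/-- Let `S` be a set of at least four distinct non-zero integers and `n₁, n₂` integers such that
`xy + n₁` and `xy + n₂` are squares for all distinct `x, y` in `S`. Then `|n₁ - n₂|` is neither a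
power `q^m` (`m ≥ 0`) of a prime `q` nor four times such a power. -/
theorem Pool.Agent.Results.MP_df6280_nt.DifferenceNotPrimePower.result
    (S : Finset ℤ) (hS : 4 ≤ S.card) (h0 : (0 : ℤ) ∉ S) (n₁ n₂ : ℤ)
    (h₁ : ∀ x ∈ S, ∀ y ∈ S, x ≠ y → IsSquare (x * y + n₁))
    (h₂ : ∀ x ∈ S, ∀ y ∈ S, x ≠ y → IsSquare (x * y + n₂))
    (q m : ℕ) (hq : q.Prime) :
    (n₁ - n₂).natAbs ≠ q ^ m ∧ (n₁ - n₂).natAbs ≠ 4 * q ^ m := by
  obtain ⟨T, hTS, hT⟩ := Finset.exists_subset_card_eq hS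
  have h0T : (0 : ℤ) ∉ T := fun h => h0 (hTS h)
  have h1T : ∀ x ∈ T, ∀ y ∈ T, x ≠ y → IsSquare (x * y + n₁) :=
    fun x hx y hy hxy => h₁ x (hTS hx) y (hTS hy) hxy
  have h2T : ∀ x ∈ T, ∀ y ∈ T, x ≠ y → IsSquare (x * y + n₂) :=
    fun x hx y hy hxy => h₂ x (hTS hx) y (hTS hy) hxy
  constructor
  · intro hN
    rcases Int.natAbs_eq (n₁ - n₂) with h | h
    · refine Run7.h648.PP.main_one q m hq n₁ n₂ ?_ T hT h0T h1T h2T
      rw [h, hN]
      push_cast
      rfl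
    · refine Run7.h648.PP.main_one q m hq n₂ n₁ ?_ T hT h0T h2T h1T
      have : n₂ - n₁ = ((n₁ - n₂).natAbs : ℤ) := by omega
      rw [this, hN]
      push_cast
      rfl
  · intro hN
    rcases Int.natAbs_eq (n₁ - n₂) with h | h
    · refine Run7.h648.PP.main_four q m hq n₁ n₂ ?_ T hT h0T h1T h2T
      rw [h, hN]
      push_cast
      rfl
    · refine Run7.h648.PP.main_four q m hq n₂ n₁ ?_ T hT h0T h2T h1T
      have : n₂ - n₁ = ((n₁ - n₂).natAbs : ℤ) := by omega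
      rw [this, hN]
      push_cast
      rfl
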