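import Pool.Agent.Run7.h648.FewDiff

/-!
# Sets with two properties D(n₁), D(n₂) are rare

For fixed `m ≥ 4` and `ε > 0` there are only `O(X^(63/64+ε))` triples `(S, n₁, n₂)` such that
`S` is a set of `m` non-zero integers which is both a `D(n₁)`- and a `D(n₂)`-set and
`0 < |n₁ - n₂| ≤ X`.
-/

namespace Run7.h648.Few

/-- `G N d = d² + (|N| / d)²`, the sum of the squares of two complementary divisors. -/
def G (N : ℤ) (d : ℕ) : ℤ := (d : ℤ) ^ 2 + ((N.natAbs / d : ℕ) : ℤ) ^ 2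

lemma exists_divisor (n₁ n₂ z : ℤ) (hn : n₁ ≠ n₂) (h₁ : IsSquare (z + n₁))
    (h₂ : IsSquare (z + n₂)) :
    ∃ d ∈ (n₁ - n₂).natAbs.divisors, 4 * z = G (n₁ - n₂) d - 2 * (n₁ + n₂) := by
  obtain ⟨r, hr⟩ := h₁
  obtain ⟨s, hs⟩ := h₂
  have hN : (|r| - |s|) * (|r| + |s|) = n₁ - n₂ := by
    have h1 : (|r| - |s|) * (|r| + |s|) = |r| * |r| - |s| * |s| := by ring
    rw [h1, abs_mul_abs_self, abs_mul_abs_self]
    linarith
  have hN0 : n₁ - n₂ ≠ 0 := sub_ne_zero.2 hn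
  have hprod : (|r| - |s|).natAbs * (|r| + |s|).natAbs = (n₁ - n₂).natAbs := by
    rw [← Int.natAbs_mul, hN]
  have hd0 : (|r| - |s|).natAbs ≠ 0 := by
    intro h
    rw [h, zero_mul] at hprod
    exact hN0 (Int.natAbs_eq_zero.1 hprod.symm)
  refine ⟨(|r| - |s|).natAbs, ?_, ?_⟩
  · rw [Nat.mem_divisors]
    exact ⟨⟨_, hprod.symm⟩, by rwa [ne_eq, Int.natAbs_eq_zero]⟩
  · unfold G
    rw [← hprod, Nat.mul_div_cancel_left _ (Nat.pos_of_ne_zero hd0)]
    rw [Int.natCast_natAbs, Int.natCast_natAbs, sq_abs, sq_abs]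
    have h1 : (|r| - |s|) ^ 2 + (|r| + |s|) ^ 2 = 2 * (|r| * |r|) + 2 * (|s| * |s|) := by ring
    rw [h1, abs_mul_abs_self, abs_mul_abs_self]
    linarith

/-- The relation between a triple `(S, n₁, n₂)` and its code. -/
def R (m : ℕ) (hm : 4 ≤ m) (t : Finset ℤ × ℤ × ℤ) (c : ℤ × ((Fin m × Fin m) → ℕ) × Bool) : Prop :=
  ∃ b : Fin m → ℤ, t.1 = Finset.image b Finset.univ ∧ Function.Injective b ∧ (∀ i, b i ≠ 0) ∧
    c.1 = t.2.1 - t.2.2 ∧
    (∀ i j, i ≠ j → 4 * (b i * b j) = G c.1 (c.2.1 (i, j)) - 2 * (t.2.1 + t.2.2)) ∧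
    (c.2.2 = true ↔ 0 < b ⟨0, by omega⟩)

lemma R_unique (m : ℕ) (hm : 4 ≤ m) (t t' : Finset ℤ × ℤ × ℤ)
    (c : ℤ × ((Fin m × Fin m) → ℕ) × Bool) (h : R m hm t c) (h' : R m hm t' c) : t = t' := by
  obtain ⟨b, hS, hinj, hne, hN, hP, hs⟩ := h
  obtain ⟨b', hS', hinj', hne', hN', hP', hs'⟩ := h'
  obtain ⟨S, n₁, n₂⟩ := t
  obtain ⟨S', n₁', n₂'⟩ := t'
  simp only at hS hN hP hS' hN' hP'
  let i0 : Fin m := ⟨0, by omega⟩
  let i1 : Fin m := ⟨1, by omega⟩
  let i2 : Fin m := ⟨2, by omega⟩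
  let i3 : Fin m := ⟨3, by omega⟩
  have e01 : i0 ≠ i1 := by simp [i0, i1]
  have e02 : i0 ≠ i2 := by simp [i0, i2]
  have e03 : i0 ≠ i3 := by simp [i0, i3]
  have e12 : i1 ≠ i2 := by simp [i1, i2]
  have e13 : i1 ≠ i3 := by simp [i1, i3]
  have e23 : i2 ≠ i3 := by simp [i2, i3]
  -- the sum `n₁ + n₂` is determined
  have key : ∀ (β : Fin m → ℤ) (σ : ℤ), Function.Injective β →
      (∀ i j, i ≠ j → 4 * (β i * β j) = G c.1 (c.2.1 (i, j)) - 2 * σ) →
      2 * σ * (G c.1 (c.2.1 (i0, i1)) + G c.1 (c.2.1 (i2, i3))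
        - G c.1 (c.2.1 (i0, i2)) - G c.1 (c.2.1 (i1, i3)))
      = G c.1 (c.2.1 (i0, i1)) * G c.1 (c.2.1 (i2, i3))
        - G c.1 (c.2.1 (i0, i2)) * G c.1 (c.2.1 (i1, i3)) ∧
      (G c.1 (c.2.1 (i0, i1)) + G c.1 (c.2.1 (i2, i3))
        - G c.1 (c.2.1 (i0, i2)) - G c.1 (c.2.1 (i1, i3))) ≠ 0 := by
    intro β σ hβ hβP
    have q01 := hβP i0 i1 e01
    have q23 := hβP i2 i3 e23
    have q02 := hβP i0 i2 e02
    have q13 := hβP i1 i3 e13
    have g01 : G c.1 (c.2.1 (i0, i1)) = 4 * (β i0 * β i1) + 2 * σ := by linarith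
    have g23 : G c.1 (c.2.1 (i2, i3)) = 4 * (β i2 * β i3) + 2 * σ := by linarith
    have g02 : G c.1 (c.2.1 (i0, i2)) = 4 * (β i0 * β i2) + 2 * σ := by linarith
    have g13 : G c.1 (c.2.1 (i1, i3)) = 4 * (β i1 * β i3) + 2 * σ := by linarith
    rw [g01, g23, g02, g13]
    constructor
    · ring
    · have h1 : 4 * (β i0 * β i1) + 2 * σ + (4 * (β i2 * β i3) + 2 * σ)
          - (4 * (β i0 * β i2) + 2 * σ) - (4 * (β i1 * β i3) + 2 * σ)
          = 4 * ((β i0 - β i3) * (β i1 - β i2)) := by ring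
      rw [h1]
      have h2 : β i0 - β i3 ≠ 0 := sub_ne_zero.2 fun h => e03 (hβ h)
      have h3 : β i1 - β i2 ≠ 0 := sub_ne_zero.2 fun h => e12 (hβ h)
      exact mul_ne_zero (by norm_num) (mul_ne_zero h2 h3)
  obtain ⟨k1, k2⟩ := key b (n₁ + n₂) hinj hP
  obtain ⟨k1', -⟩ := key b' (n₁' + n₂') hinj' hP'
  have hsum : n₁ + n₂ = n₁' + n₂' := by
    rw [← k1'] at k1
    have := mul_right_cancel₀ k2 k1
    linarith
  have hn1 : n₁ = n₁' := by linarith
  have hn2 : n₂ = n₂' := by linarith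
  have hPP : ∀ i j, i ≠ j → b i * b j = b' i * b' j := by
    intro i j hij
    have h1 := hP i j hij
    have h2 := hP' i j hij
    rw [← hsum] at h2
    linarith
  have hb0 : b i0 = b' i0 := by
    have h01 := hPP i0 i1 e01
    have h02 := hPP i0 i2 e02
    have h12 := hPP i1 i2 e12
    have hsq : b i0 * b i0 * (b i1 * b i2) = b' i0 * b' i0 * (b i1 * b i2) := by
      calc b i0 * b i0 * (b i1 * b i2) = (b i0 * b i1) * (b i0 * b i2) := by ring
        _ = (b' i0 * b' i1) * (b' i0 * b' i2) := by rw [h01, h02]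
        _ = b' i0 * b' i0 * (b' i1 * b' i2) := by ring
        _ = b' i0 * b' i0 * (b i1 * b i2) := by rw [h12]
    have hsq' := mul_right_cancel₀ (mul_ne_zero (hne i1) (hne i2)) hsq
    rcases mul_self_eq_mul_self_iff.1 hsq' with h | h
    · exact h
    · exfalso
      have hiff : 0 < b i0 ↔ 0 < b' i0 := hs.symm.trans hs'
      rcases lt_or_gt_of_ne (hne' i0) with h1 | h1
      · have : 0 < b i0 := by omega
        have := hiff.1 this
        omega
      · have := hiff.2 h1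
        omega
  have hbb : b = b' := by
    funext j
    by_cases hj : j = i0
    · rw [hj, hb0]
    · have h1 := hPP i0 j (fun h => hj h.symm)
      rw [← hb0] at h1
      exact mul_left_cancel₀ (hne i0) h1
  rw [hS, hS', hbb, hn1, hn2]

lemma R_exists (m : ℕ) (hm : 4 ≤ m) (S : Finset ℤ) (n₁ n₂ : ℤ) (hS : S.card = m)
    (h0 : (0 : ℤ) ∉ S) (hn : n₁ ≠ n₂)
    (h₁ : ∀ x ∈ S, ∀ y ∈ S, x ≠ y → IsSquare (x * y + n₁))
    (h₂ : ∀ x ∈ S, ∀ y ∈ S, x ≠ y → IsSquare (x * y + n₂)) :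
    ∃ (g : (Fin m × Fin m) → ℕ) (β : Bool), (∀ p, g p ∈ (n₁ - n₂).natAbs.divisors) ∧
      R m hm (S, n₁, n₂) (n₁ - n₂, g, β) := by
  classical
  let b := S.orderEmbOfFin hS
  have hb : ∀ i, b i ∈ S := fun i => S.orderEmbOfFin_mem hS i
  have hz : ∀ i, b i ≠ 0 := fun i h => h0 (h ▸ hb i)
  have hN0 : (n₁ - n₂).natAbs ≠ 0 := by
    rw [ne_eq, Int.natAbs_eq_zero]
    exact sub_ne_zero.2 hn
  have hex : ∀ p : Fin m × Fin m, ∃ d ∈ (n₁ - n₂).natAbs.divisors,
      p.1 ≠ p.2 → 4 * (b p.1 * b p.2) = G (n₁ - n₂) d - 2 * (n₁ + n₂) := by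
    intro p
    by_cases hp : p.1 = p.2
    · exact ⟨1, by simpa using sub_ne_zero.2 hn, fun h => absurd hp h⟩
    · have hbp : b p.1 ≠ b p.2 := fun h => hp (b.injective h)
      obtain ⟨d, hd, h⟩ := exists_divisor n₁ n₂ (b p.1 * b p.2) hn
        (h₁ _ (hb _) _ (hb _) hbp) (h₂ _ (hb _) _ (hb _) hbp)
      exact ⟨d, hd, fun _ => h⟩
  choose g hg hg' using hex
  refine ⟨g, decide (0 < b ⟨0, by omega⟩), hg, b, ?_, b.injective, hz, rfl, ?_, ?_⟩
  · exact (S.image_orderEmbOfFin_univ hS).symm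
  · intro i j hij
    exact hg' (i, j) hij
  · simp

end Run7.h648.Few

/-- For every `m ≥ 4` and `ε > 0` there is a constant `C` such that for all `X ≥ 1` at most
`C * X^(63/64+ε)` triples `(S, n₁, n₂)` satisfy: `S` is a set of `m` non-zero integers,
`0 < |n₁ - n₂| ≤ X`, and `xy + n₁`, `xy + n₂` are squares for all distinct `x, y` in `S`. -/
theorem Pool.Agent.Results.MP_df6280_nt.FewDoubleTuples.result (m : ℕ) (hm : 4 ≤ m)
    (ε : ℝ) (hε : 0 < ε) :
    ∃ C : ℝ, ∀ X : ℕ, 1 ≤ X → ∃ F : Finset (Finset ℤ × ℤ × ℤ),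
      (F.card : ℝ) ≤ C * (X : ℝ) ^ (63 / 64 + ε) ∧
      ∀ (S : Finset ℤ) (n₁ n₂ : ℤ), S.card = m → (0 : ℤ) ∉ S → n₁ ≠ n₂ → |n₁ - n₂| ≤ X →
        (∀ x ∈ S, ∀ y ∈ S, x ≠ y → IsSquare (x * y + n₁)) →
        (∀ x ∈ S, ∀ y ∈ S, x ≠ y → IsSquare (x * y + n₂)) → (S, n₁, n₂) ∈ F := by
  classical
  have hm0 : 0 < m := by omega
  set k : ℕ := m * m + 6 with hk
  have hkk : (0 : ℝ) < (k : ℝ) := by positivity
  obtain ⟨D, hD, hdiv⟩ := Pool.Agent.H510R2.divisor_bound (ε / (k : ℝ)) (by positivity)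
  refine ⟨12 * D ^ k, ?_⟩
  intro X hX
  have hX0 : (0 : ℝ) < X := by exact_mod_cast hX
  -- divisor bound in the form we need
  have hdb : ∀ N : ℕ, 1 ≤ N → N ≤ X →
      (N.divisors.card : ℝ) ≤ D * (X : ℝ) ^ (ε / (k : ℝ)) := by
    intro N h1 h2
    refine (hdiv N h1).trans (mul_le_mul_of_nonneg_left ?_ hD.le)
    exact Real.rpow_le_rpow (by positivity) (by exact_mod_cast h2) (by positivity)
  set Y : ℝ := D * (X : ℝ) ^ (ε / (k : ℝ)) with hY
  have hY0 : 0 ≤ Y := by positivity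
  let h : ℤ × ((Fin m × Fin m) → ℕ) × Bool → Finset ℤ × ℤ × ℤ := fun c =>
    if hc : ∃ t, Run7.h648.Few.R m hm t c then hc.choose else (∅, 0, 0)
  let I : Finset ℤ := (Finset.Icc (-(X : ℤ)) X).filter
    (fun N => N ≠ 0 ∧ N.natAbs ∈ Run7.h648.FewDiff.NN X)
  let B : Finset (ℤ × ((Fin m × Fin m) → ℕ) × Bool) := I.biUnion fun N =>
    ((Fintype.piFinset fun _ : Fin m × Fin m => N.natAbs.divisors) ×ˢ
      (Finset.univ : Finset Bool)).image fun q => (N, q)
  refine ⟨B.image h, ?_, ?_⟩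
  · -- the number of differences
    have hMcard : ((((Finset.Icc 1 X).filter fun M => M ^ 64 ≤ X ^ 63).card : ℕ) : ℝ)
        ≤ (X : ℝ) ^ (63 / 64 : ℝ) := by
      have h1 : ((Finset.Icc 1 X).filter fun M => M ^ 64 ≤ X ^ 63)
          ⊆ Finset.Icc 1 ⌊(X : ℝ) ^ (63 / 64 : ℝ)⌋₊ := by
        intro M hM
        rw [Finset.mem_filter, Finset.mem_Icc] at hM
        rw [Finset.mem_Icc]
        refine ⟨hM.1.1, Nat.le_floor ?_⟩
        have h2 : ((M : ℝ)) ^ 64 ≤ (X : ℝ) ^ 63 := by exact_mod_cast hM.2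
        have h3 : (X : ℝ) ^ 63 = ((X : ℝ) ^ (63 / 64 : ℝ)) ^ 64 := by
          rw [← Real.rpow_natCast, ← Real.rpow_natCast, ← Real.rpow_mul hX0.le]
          norm_num
        rw [h3] at h2
        exact (pow_le_pow_iff_left₀ (by positivity) (by positivity) (by norm_num)).1 h2
      have h2 := Finset.card_le_card h1
      rw [Nat.card_Icc, Nat.add_sub_cancel] at h2
      calc ((((Finset.Icc 1 X).filter fun M => M ^ 64 ≤ X ^ 63).card : ℕ) : ℝ)
          ≤ (⌊(X : ℝ) ^ (63 / 64 : ℝ)⌋₊ : ℝ) := by exact_mod_cast h2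
        _ ≤ (X : ℝ) ^ (63 / 64 : ℝ) := Nat.floor_le (by positivity)
    have hNN : (((Run7.h648.FewDiff.NN X).card : ℕ) : ℝ)
        ≤ (X : ℝ) ^ (63 / 64 : ℝ) * (3 * Y ^ 6) := by
      have h1 : (Run7.h648.FewDiff.NN X).card ≤
          ∑ M ∈ (Finset.Icc 1 X).filter (fun M => M ^ 64 ≤ X ^ 63), M.divisors.card ^ 6 * 3 := by
        unfold Run7.h648.FewDiff.NN
        refine Finset.card_biUnion_le.trans (Finset.sum_le_sum fun M _ => ?_)
        refine Finset.card_biUnion_le.trans ?_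
        refine (Finset.sum_le_sum fun r _ => Run7.h648.FewDiff.Nset_card M r).trans ?_
        rw [Finset.sum_const, Fintype.card_piFinset]
        simp
      calc (((Run7.h648.FewDiff.NN X).card : ℕ) : ℝ)
          ≤ ((∑ M ∈ (Finset.Icc 1 X).filter (fun M => M ^ 64 ≤ X ^ 63),
              M.divisors.card ^ 6 * 3 : ℕ) : ℝ) := by exact_mod_cast h1
        _ = ∑ M ∈ (Finset.Icc 1 X).filter (fun M => M ^ 64 ≤ X ^ 63),
              3 * (M.divisors.card : ℝ) ^ 6 := by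
            push_cast
            refine Finset.sum_congr rfl fun N _ => ?_
            ring
        _ ≤ ∑ M ∈ (Finset.Icc 1 X).filter (fun M => M ^ 64 ≤ X ^ 63), 3 * Y ^ 6 := by
            refine Finset.sum_le_sum fun M hM => ?_
            rw [Finset.mem_filter, Finset.mem_Icc] at hM
            exact mul_le_mul_of_nonneg_left
              (pow_le_pow_left₀ (by positivity) (hdb M hM.1.1 hM.1.2) 6) (by norm_num)
        _ = (((Finset.Icc 1 X).filter fun M => M ^ 64 ≤ X ^ 63).card : ℝ) * (3 * Y ^ 6) := by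
            rw [Finset.sum_const, nsmul_eq_mul]
        _ ≤ (X : ℝ) ^ (63 / 64 : ℝ) * (3 * Y ^ 6) :=
            mul_le_mul_of_nonneg_right hMcard (by positivity)
    have hcardI : (I.card : ℝ) ≤ 2 * ((X : ℝ) ^ (63 / 64 : ℝ) * (3 * Y ^ 6)) := by
      have h1 : I ⊆ (Run7.h648.FewDiff.NN X).image (fun n : ℕ => (n : ℤ)) ∪
          (Run7.h648.FewDiff.NN X).image (fun n : ℕ => -(n : ℤ)) := by
        intro N hN
        simp only [I, Finset.mem_filter] at hN
        rw [Finset.mem_union, Finset.mem_image, Finset.mem_image]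
        rcases Int.natAbs_eq N with h2 | h2
        · left; exact ⟨N.natAbs, hN.2.2, h2.symm⟩
        · right; exact ⟨N.natAbs, hN.2.2, h2.symm⟩
      have h2 : I.card ≤ 2 * (Run7.h648.FewDiff.NN X).card := by
        refine (Finset.card_le_card h1).trans ((Finset.card_union_le _ _).trans ?_)
        have h3 := Finset.card_image_le (s := Run7.h648.FewDiff.NN X) (f := fun n : ℕ => (n : ℤ))
        have h4 := Finset.card_image_le (s := Run7.h648.FewDiff.NN X) (f := fun n : ℕ => -(n : ℤ))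
        omega
      have h3 : (I.card : ℝ) ≤ 2 * ((Run7.h648.FewDiff.NN X).card : ℝ) := by exact_mod_cast h2
      exact h3.trans (mul_le_mul_of_nonneg_left hNN (by norm_num))
    have hB : (B.card : ℝ) ≤ ∑ N ∈ I, 2 * ((N.natAbs.divisors.card : ℝ)) ^ (m * m) := by
      have h1 : B.card ≤ ∑ N ∈ I, (N.natAbs.divisors.card ^ (m * m) * 2) := by
        refine Finset.card_biUnion_le.trans (Finset.sum_le_sum fun N _ => ?_)
        refine Finset.card_image_le.trans ?_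
        rw [Finset.card_product, Fintype.card_piFinset]
        simp [Finset.prod_const]
      calc (B.card : ℝ) ≤ ((∑ N ∈ I, (N.natAbs.divisors.card ^ (m * m) * 2) : ℕ) : ℝ) := by
            exact_mod_cast h1
        _ = ∑ N ∈ I, 2 * ((N.natAbs.divisors.card : ℝ)) ^ (m * m) := by
            push_cast
            refine Finset.sum_congr rfl fun N _ => ?_
            ring
    have hYk : Y ^ k = D ^ k * (X : ℝ) ^ ε := by
      rw [hY, mul_pow]
      congr 1
      rw [← Real.rpow_natCast, ← Real.rpow_mul (by positivity)]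
      congr 1
      field_simp
    calc ((B.image h).card : ℝ) ≤ B.card := by exact_mod_cast Finset.card_image_le
      _ ≤ ∑ N ∈ I, 2 * ((N.natAbs.divisors.card : ℝ)) ^ (m * m) := hB
      _ ≤ ∑ N ∈ I, 2 * Y ^ (m * m) := by
          refine Finset.sum_le_sum fun N hN => mul_le_mul_of_nonneg_left ?_ (by norm_num)
          simp only [I, Finset.mem_filter, Finset.mem_Icc] at hN
          exact pow_le_pow_left₀ (by positivity) (hdb N.natAbs (by omega) (by omega)) _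
      _ = I.card * (2 * Y ^ (m * m)) := by
          rw [Finset.sum_const, nsmul_eq_mul]
      _ ≤ (2 * ((X : ℝ) ^ (63 / 64 : ℝ) * (3 * Y ^ 6))) * (2 * Y ^ (m * m)) :=
          mul_le_mul_of_nonneg_right hcardI (by positivity)
      _ = 12 * (X : ℝ) ^ (63 / 64 : ℝ) * Y ^ k := by
          rw [hk, pow_add]
          ring
      _ = 12 * D ^ k * (X : ℝ) ^ (63 / 64 + ε) := by
          rw [hYk, Real.rpow_add hX0]
          ring
  · intro S n₁ n₂ hS h0 hn hnX h₁ h₂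
    obtain ⟨g, β, hg, hR⟩ := Run7.h648.Few.R_exists m hm S n₁ n₂ hS h0 hn h₁ h₂
    have hN0 : n₁ - n₂ ≠ 0 := sub_ne_zero.2 hn
    rw [Finset.mem_image]
    refine ⟨(n₁ - n₂, g, β), ?_, ?_⟩
    · simp only [B, Finset.mem_biUnion, Finset.mem_image]
      refine ⟨n₁ - n₂, ?_, (g, β), ?_, rfl⟩
      · simp only [I, Finset.mem_filter, Finset.mem_Icc]
        have hab := abs_le.1 hnX
        refine ⟨⟨hab.1, hab.2⟩, hN0, ?_⟩
        obtain ⟨b, -, hinj, hne, -, hP, -⟩ := hR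
        let i0 : Fin m := ⟨0, by omega⟩
        let i1 : Fin m := ⟨1, by omega⟩
        let i2 : Fin m := ⟨2, by omega⟩
        let i3 : Fin m := ⟨3, by omega⟩
        have e01 : i0 ≠ i1 := by simp [i0, i1]
        have e02 : i0 ≠ i2 := by simp [i0, i2]
        have e03 : i0 ≠ i3 := by simp [i0, i3]
        have e12 : i1 ≠ i2 := by simp [i1, i2]
        have e13 : i1 ≠ i3 := by simp [i1, i3]
        have e23 : i2 ≠ i3 := by simp [i2, i3]
        have hbne : ∀ i j, i ≠ j → b i ≠ b j := fun i j hij h => hij (hinj h)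
        have hform : ∀ i j, i ≠ j → (g (i, j) : ℤ) ^ 2 +
            (((n₁ - n₂).natAbs / g (i, j) : ℕ) : ℤ) ^ 2
            = 4 * (b i * b j) + 2 * (n₁ + n₂) := by
          intro i j hij
          have h5 := hP i j hij
          simp only [Run7.h648.Few.G] at h5
          linarith
        refine Run7.h648.FewDiff.mem_NN X (n₁ - n₂).natAbs (Int.natAbs_ne_zero.2 hN0) (by omega)
          (b i0) (b i1) (b i2) (b i3) (2 * (n₁ + n₂)) (hne _) (hne _) (hne _) (hne _)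
          (hbne _ _ e01) (hbne _ _ e02) (hbne _ _ e03) (hbne _ _ e12) (hbne _ _ e13)
          (hbne _ _ e23)
          ![g (i0, i1), g (i2, i3), g (i0, i2), g (i1, i3), g (i0, i3), g (i1, i2)] ?_
          (hform _ _ e01) (hform _ _ e23) (hform _ _ e02) (hform _ _ e13) (hform _ _ e03)
          (hform _ _ e12)
        intro j
        have hgd : ∀ p, g p ∣ (n₁ - n₂).natAbs := fun p => Nat.dvd_of_mem_divisors (hg p)
        fin_cases j
        · exact hgd _
        · exact hgd _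
        · exact hgd _
        · exact hgd _
        · exact hgd _
        · exact hgd _
      · simp only [Finset.mem_product, Fintype.mem_piFinset, Finset.mem_univ, and_true]
        exact hg
    · have hc : ∃ t, Run7.h648.Few.R m hm t (n₁ - n₂, g, β) := ⟨_, hR⟩
      have h1 : h (n₁ - n₂, g, β) = hc.choose := dif_pos hc
      rw [h1]
      exact Run7.h648.Few.R_unique m hm _ _ _ hc.choose_spec hR
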