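import Pool.Agent.Run7.h648.PrimeData

set_option autoImplicit false

/-!
# The difference n₁ - n₂ has no large prime factor

If four distinct non-zero integers form a set which is both a `D(n₁)`- and a
`D(n₂)`-quadruple, `n₁ ≠ n₂`, then every prime factor `p` of `n₁ - n₂` satisfies
`p ^ 4 ≤ 2 * |n₁ - n₂| ^ 3`.
-/

namespace Run7.h648.PB

lemma exists_div (n₁ n₂ z : ℤ) (hn : n₁ ≠ n₂) (h₁ : IsSquare (z + n₁))
    (h₂ : IsSquare (z + n₂)) :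
    ∃ d : ℕ, d ∣ (n₁ - n₂).natAbs ∧
      (d : ℤ) ^ 2 + (((n₁ - n₂).natAbs / d : ℕ) : ℤ) ^ 2 = 4 * z + 2 * (n₁ + n₂) := by
  obtain ⟨r, hr⟩ := h₁
  obtain ⟨s, hs⟩ := h₂
  have hN : (|r| - |s|) * (|r| + |s|) = n₁ - n₂ := by
    have h1 : (|r| - |s|) * (|r| + |s|) = |r| * |r| - |s| * |s| := by ring
    rw [h1, abs_mul_abs_self, abs_mul_abs_self]
    linarith
  have hN0 : n₁ - n₂ ≠ 0 := sub_ne_zero.2 hn
  have hprod : (|r| - |s|).natAbs * (|r| + |s|).natAbs = (n₁ - n₂).natAbs := by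
    rw [← Int.natAbs_mul, hN]
  have hd0 : (|r| - |s|).natAbs ≠ 0 := by
    intro h
    rw [h, zero_mul] at hprod
    exact hN0 (Int.natAbs_eq_zero.1 hprod.symm)
  refine ⟨(|r| - |s|).natAbs, ⟨_, hprod.symm⟩, ?_⟩
  rw [← hprod, Nat.mul_div_cancel_left _ (Nat.pos_of_ne_zero hd0)]
  rw [Int.natCast_natAbs, Int.natCast_natAbs, sq_abs, sq_abs]
  have h1 : (|r| - |s|) ^ 2 + (|r| + |s|) ^ 2 = 2 * (|r| * |r|) + 2 * (|s| * |s|) := by ring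
  rw [h1, abs_mul_abs_self, abs_mul_abs_self]
  linarith

end Run7.h648.PB

/-- Let `S` be a set of at least four distinct non-zero integers and `n₁ ≠ n₂` integers such that
`xy + n₁` and `xy + n₂` are squares for all distinct `x, y` in `S`. Then every prime factor `p`
of `n₁ - n₂` satisfies `p ^ 4 ≤ 2 * |n₁ - n₂| ^ 3`. -/
theorem Pool.Agent.Results.MP_df6280_nt.PrimeFactorBound.result
    (S : Finset ℤ) (hS : 4 ≤ S.card) (h0 : (0 : ℤ) ∉ S) (n₁ n₂ : ℤ) (hn : n₁ ≠ n₂)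
    (h₁ : ∀ x ∈ S, ∀ y ∈ S, x ≠ y → IsSquare (x * y + n₁))
    (h₂ : ∀ x ∈ S, ∀ y ∈ S, x ≠ y → IsSquare (x * y + n₂))
    (p : ℕ) (hp : p.Prime) (hpN : p ∣ (n₁ - n₂).natAbs) :
    p ^ 4 ≤ 2 * (n₁ - n₂).natAbs ^ 3 := by
  classical
  obtain ⟨T, hTS, hT⟩ := Finset.exists_subset_card_eq hS
  let b := T.orderEmbOfFin hT
  have hb : ∀ i, b i ∈ S := fun i => hTS (T.orderEmbOfFin_mem hT i)
  have hz : ∀ i, b i ≠ 0 := fun i h => h0 (h ▸ hb i)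
  have hne : ∀ i j : Fin 4, i ≠ j → b i ≠ b j := fun i j hij h => hij (b.injective h)
  have hN0 : (n₁ - n₂).natAbs ≠ 0 := by
    rw [ne_eq, Int.natAbs_eq_zero]
    exact sub_ne_zero.2 hn
  have hex : ∀ i j : Fin 4, i ≠ j → ∃ d : ℕ, d ∣ (n₁ - n₂).natAbs ∧
      (d : ℤ) ^ 2 + (((n₁ - n₂).natAbs / d : ℕ) : ℤ) ^ 2 = 4 * (b i * b j) + 2 * (n₁ + n₂) :=
    fun i j hij => Run7.h648.PB.exists_div n₁ n₂ (b i * b j) hn
      (h₁ _ (hb i) _ (hb j) (hne i j hij)) (h₂ _ (hb i) _ (hb j) (hne i j hij))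
  obtain ⟨d0, k0, e0⟩ := hex 0 1 (by decide)
  obtain ⟨d1, k1, e1⟩ := hex 2 3 (by decide)
  obtain ⟨d2, k2, e2⟩ := hex 0 2 (by decide)
  obtain ⟨d3, k3, e3⟩ := hex 1 3 (by decide)
  obtain ⟨d4, k4, e4⟩ := hex 0 3 (by decide)
  obtain ⟨d5, k5, e5⟩ := hex 1 2 (by decide)
  have hδ : ∀ k : Fin 6, (![d0, d1, d2, d3, d4, d5] : Fin 6 → ℕ) k ∣ (n₁ - n₂).natAbs := by
    intro k
    fin_cases k
    · exact k0
    · exact k1
    · exact k2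
    · exact k3
    · exact k4
    · exact k5
  have hP : ∀ k : Fin 6, p ∣ (![d0, d1, d2, d3, d4, d5] : Fin 6 → ℕ) k ∨
      p ∣ (n₁ - n₂).natAbs / (![d0, d1, d2, d3, d4, d5] : Fin 6 → ℕ) k := by
    intro k
    have h := Nat.mul_div_cancel' (hδ k)
    rw [← h] at hpN
    exact (Nat.Prime.dvd_mul hp).1 hpN
  have hbound := Run7.h648.FewDiff.common_bound (n₁ - n₂).natAbs hN0 (b 0) (b 1) (b 2) (b 3)
    (2 * (n₁ + n₂)) (hz 0) (hz 1) (hz 2) (hz 3) (hne 0 1 (by decide)) (hne 0 2 (by decide))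
    (hne 0 3 (by decide)) (hne 1 2 (by decide)) (hne 1 3 (by decide)) (hne 2 3 (by decide))
    ![d0, d1, d2, d3, d4, d5] hδ e0 e1 e2 e3 e4 e5 p hpN hP
  obtain ⟨M, hM⟩ := hpN
  have hp0 : 0 < p := hp.pos
  rw [hM, Nat.mul_div_cancel_left _ hp0] at hbound
  rw [hM]
  calc p ^ 4 = p ^ 3 * p := by ring
    _ ≤ p ^ 3 * (2 * M ^ 3) := Nat.mul_le_mul_left _ hbound
    _ = 2 * (p * M) ^ 3 := by ring
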